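import Pool.Agent.MP_d20a68_co.T.SCell

/-! The tagged degrees after the rounding. -/

set_option autoImplicit false
set_option linter.unusedSectionVars false
set_option linter.unusedVariables false
open Finset
open scoped Classical

namespace Pool.Agent.MP_d20a68_co.T

open Pool.Agent.MP_d20a68_co.Poly

variable {V Lv : Type} [Fintype V] [Fintype Lv] {k R : ℕ} {D : Dat V Lv k R}

lemma cell_SRd1c {ν : ℝ} (hE : D.EqM ν) {v : V} (hv : v ∈ D.Lt) {l l' : Lv}
    (hl' : l' ∈ small D.z D.h) (π : Bool × Bool × Bool → Bool)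
    (hπ : ∀ w, π (D.σ l' w, D.σ D.z w, D.σ D.h w) = D.σ l w)
    (h2 : ∀ s0 s : Bool, ∑ x : Bool × Bool × Bool, ind (s0 ≠ x.2.1 ∧ s ≠ π x) = 2) :
    |∑ c ∈ univ.filter (fun c => D.MI c v), ind (D.Cut D.z c v ∧ D.Cut l c v) -
      (cnt fun c => D.MI c v : ℝ) / 4| ≤ (R + 9) * ν * k / 4 := by
  have e := cellS (fun c => D.MI c v)
    (fun c => (D.σ l' (D.m c v), D.σ D.z (D.m c v), D.σ D.h (D.m c v)))
    (fun x => ind (D.σ D.z v ≠ x.2.1 ∧ D.σ l v ≠ π x)) 8 (cnt fun c => D.MI c v : ℝ)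
    ((R + 9) * ν * k) (by norm_num) fun x => by
      have g := hE.hI v hv l' hl' x.1 x.2.1 x.2.2
      rwa [cntS_congr (Q := fun c => D.MI c v ∧
        (D.σ l' (D.m c v), D.σ D.z (D.m c v), D.σ D.h (D.m c v)) = x)
        fun c => by simp only [Prod.ext_iff]] at g
  simp only [abs_of_nonneg (indS_nonneg _), h2, hπ] at e
  rw [show (cnt fun c => D.MI c v : ℝ) / 4 = (cnt fun c => D.MI c v : ℝ) / 8 * 2 by ring,
    show ((R : ℝ) + 9) * ν * k / 4 = (R + 9) * ν * k / 8 * 2 by ring]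
  exact e

theorem rd1cS : Rd1cP := by
  intro V Lv _ _ k R D C φ η ν u B S Lp H ν' ν₁ om hP hE hA n0 n1 v hv l hl
  have hk := H.kpos
  have hν := H.ν0
  have hη := H.η0
  have hη' := H.eta_le
  have hy : (0 : ℝ) ≤ D.y l := Nat.cast_nonneg _
  have e1 : |∑ c ∈ univ.filter (fun c => D.MI c v), ind (D.Cut D.z c v ∧ D.Cut l c v) -
      (cnt fun c => D.MI c v : ℝ) / 4| ≤ (R + 9) * ν * k / 4 := by
    by_cases h : l = D.h
    · obtain ⟨l', hl'⟩ := hE.sm
      refine cell_SRd1c hE hv hl' (fun x => x.2.2) (fun w => by rw [h]) fun s0 s => ?_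
      simp only [Fintype.sum_prod_type, Fintype.sum_bool]
      cases s0 <;> cases s <;> norm_num [ind]
    · refine cell_SRd1c hE hv (mem_filter.2 ⟨mem_univ _, hl, h⟩) (fun x => x.1) (fun w => rfl)
        fun s0 s => ?_
      simp only [Fintype.sum_prod_type, Fintype.sum_bool]
      cases s0 <;> cases s <;> norm_num [ind]
  have e2 := hA.aI v (Sum.inr l)
  rw [cntS_congr (Q := fun c => om c v = Sum.inr l) fun c =>
    ⟨fun g => g.2, fun g => ⟨(hP.tag c v l (g ▸ hA.pos c v)).1, g⟩⟩] at e2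
  have e3 : ∑ c ∈ univ.filter (fun c => D.MI c v), D.prob (η / 4) c v (Sum.inr l) =
      8 * (η / 4) * D.y l / k *
        ∑ c ∈ univ.filter (fun c => D.MI c v), ind (D.Cut D.z c v ∧ D.Cut l c v) := by
    rw [mul_sum]
    refine sum_congr rfl fun c hc => ?_
    have g := (mem_filter.1 hc).2
    rw [D.prob_tag _ g.1, Dat.xt]
    congr 2
    exact propext ⟨fun g' => ⟨g'.2.1, g'.2.2.1⟩, fun g' => ⟨g.2, g'.1, g'.2, hl⟩⟩
  have e4 : (0 : ℝ) ≤ 8 * (η / 4) * D.y l / k := by positivity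
  have e5 := mul_le_mul_of_nonneg_left e1 e4
  rw [← abs_of_nonneg e4, ← abs_mul, abs_of_nonneg e4, mul_sub, ← e3,
    show 8 * (η / 4) * D.y l / k * ((cnt fun c => D.MI c v : ℝ) / 4) =
      2 * (η / 4) * D.y l * (cnt fun c => D.MI c v : ℝ) / k by ring,
    show 8 * (η / 4) * D.y l / k * (((R : ℝ) + 9) * ν * k / 4) =
      η / 2 * ((R + 9) * ν * D.y l) by field_simp; ring] at e5
  have e6 : ν' * (u : ℝ) ^ 6 ≤ ν' * D.y l := mul_le_mul_of_nonneg_left (H.u6 l) n0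
  have e7 : (0 : ℝ) ≤ ((R : ℝ) + 9) * ν * D.y l := by positivity
  have e8 := mul_le_mul_of_nonneg_right n1 hy
  have e9 : η / 2 * (((R : ℝ) + 9) * ν * D.y l) ≤ 1 * ((R + 9) * ν * D.y l) :=
    mul_le_mul_of_nonneg_right (by linarith) e7
  have e0 : 0 ≤ ν * D.y l := by positivity
  have a2 := abs_le.1 e2
  have a5 := abs_le.1 e5
  rw [abs_le]
  constructor <;> nlinarith [a2.1, a2.2, a5.1, a5.2]

end Pool.Agent.MP_d20a68_co.T
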